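import Mathlib
import Pool.Agent.TH278.DX.Final
import Pool.Agent.TH993.J4772
import Pool.Agent.Y324.DX.Deriv
set_option autoImplicit false

namespace Pool.Agent.Y738.DX

open Pool.Agent.TH278.DX
open Pool.Agent.TH993.DX

/-- From invariant forms of the self-extensions bounded by `c` to the distance estimate. -/
theorem dist_of_c {G H : Type} [Group G] [NormedAddCommGroup H] [InnerProductSpace ℂ H]
    [CompleteSpace H] (c : ℝ) (hc : 1 < c) (M : ℝ) (hM1 : 1 ≤ M)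
    (hM : ∀ (H : Type) [NormedAddCommGroup H] [InnerProductSpace ℂ H] [CompleteSpace H]
      (π : G →* (H →L[ℂ] H)ˣ), Bdd π c → Inv π 1 M)
    (σ : G →* (H →L[ℂ] H)ˣ)
    (hσ : ∀ g, ((σ g : (H →L[ℂ] H)ˣ) : H →L[ℂ] H) ∈ unitary (H →L[ℂ] H))
    (T : H →L[ℂ] H) (d : ℝ)
    (hd : ∀ g, ‖((σ g : (H →L[ℂ] H)ˣ) : H →L[ℂ] H) * T -
      T * ((σ g : (H →L[ℂ] H)ˣ) : H →L[ℂ] H)‖ ≤ d) :
    ∃ B : H →L[ℂ] H, (∀ g, B * ((σ g : (H →L[ℂ] H)ˣ) : H →L[ℂ] H) =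
      ((σ g : (H →L[ℂ] H)ˣ) : H →L[ℂ] H) * B) ∧ ‖T - B‖ ≤ M / (c - 1) * d := by
  have hc1 : 0 < c - 1 := sub_pos.2 hc
  have hd0 : 0 ≤ d := (norm_nonneg _).trans (hd 1)
  rcases hd0.eq_or_lt with h0 | h0
  · subst h0
    refine ⟨T, fun g => ?_, ?_⟩
    · have := norm_le_zero_iff.1 (hd g)
      rw [sub_eq_zero] at this
      exact this.symm
    · rw [sub_self, norm_zero, mul_zero]
  · obtain ⟨r, hr⟩ : ∃ r : ℝ, r = (c - 1) / d := ⟨_, rfl⟩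
    have hr0 : 0 < r := hr ▸ div_pos hc1 h0
    set T' : H →L[ℂ] H := ((r : ℝ) : ℂ) • T with hT'
    have hD : ∀ g, ‖((σ g : (H →L[ℂ] H)ˣ) : H →L[ℂ] H) * T'
        - T' * ((σ g : (H →L[ℂ] H)ˣ) : H →L[ℂ] H)‖ ≤ c - 1 := fun g => by
      rw [hT', mul_smul_comm, smul_mul_assoc, ← smul_sub, norm_smul, Complex.norm_real,
        Real.norm_of_nonneg hr0.le]
      calc _ ≤ r * d := mul_le_mul_of_nonneg_left (hd g) hr0.le
        _ = c - 1 := by rw [hr]; field_simp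
    have hB : Bdd (hom2 σ T').toHomUnits c := fun g =>
      (Pool.Agent.Y324.DX.norm_bl_le' (hσ g)).trans (by linarith [hD g])
    obtain ⟨C, hC, hTC⟩ := Pool.Agent.TH993.DX.core M hM1 σ hσ T' (hM (WithLp 2 (H × H)) _ hB)
    refine ⟨((r⁻¹ : ℝ) : ℂ) • C, fun g => by rw [smul_mul_assoc, mul_smul_comm, hC g], ?_⟩
    have e : T - ((r⁻¹ : ℝ) : ℂ) • C = ((r⁻¹ : ℝ) : ℂ) • (T' - C) := by
      rw [smul_sub, hT', smul_smul, ← Complex.ofReal_mul, inv_mul_cancel₀ hr0.ne',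
        Complex.ofReal_one, one_smul]
    rw [e, norm_smul, Complex.norm_real, Real.norm_of_nonneg (inv_nonneg.2 hr0.le)]
    calc r⁻¹ * ‖T' - C‖ ≤ r⁻¹ * M := mul_le_mul_of_nonneg_left hTC (inv_nonneg.2 hr0.le)
      _ = M / (c - 1) * d := by rw [hr]; field_simp

/-- The uniform constant passes to sections. -/
theorem inv_section {Γ G : Type} [Group Γ] [Group G] (c M : ℝ)
    (hM : ∀ (H : Type) [NormedAddCommGroup H] [InnerProductSpace ℂ H] [CompleteSpace H]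
      (π : Γ →* (H →L[ℂ] H)ˣ), Bdd π c → Inv π 1 M)
    (Λ : Subgroup Γ) (φ : Λ →* G) (hφ : Function.Surjective φ) :
    ∀ (H : Type) [NormedAddCommGroup H] [InnerProductSpace ℂ H] [CompleteSpace H]
      (π : G →* (H →L[ℂ] H)ˣ), Bdd π c → Inv π 1 M := by
  intro H _ _ _ π hπ
  obtain ⟨H', _, _, _, π', J, hπ', hJ⟩ :=
    Pool.Agent.TH360.J4453.induce Λ (π.comp φ) c (fun l => hπ (φ l))
  have h2 : Inv (π.comp φ) 1 M :=
    inv_restrict (fun l : Λ => (l : Γ)) (π.comp φ) π' J hJ 1 M (hM H' π' hπ')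
  obtain ⟨A, a1, a2, a3, a4⟩ := h2
  refine ⟨A, a1, a2, a3, fun p x y => ?_⟩
  obtain ⟨l, rfl⟩ := hφ p
  exact a4 l x y

end Pool.Agent.Y738.DX
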