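import Mathlib
set_option autoImplicit false

namespace Pool.Agent.Y738.DX

/-- A kernel with small rows and large columns is far from the commutant of the translations. -/
theorem far {G : Type} [Group G] (E : Finset G) (k : G → ℝ) (θ : G → G → ℝ)
    (hgap : 1 / 2 ≤ ∑ g ∈ E, (k g * (θ g⁻¹ 1 - θ 1 g)) ^ 2)
    (T : lp (fun _ : G => ℂ) 2 →L[ℂ] lp (fun _ : G => ℂ) 2)
    (hT : ∀ (φ : lp (fun _ : G => ℂ) 2) (s : G),
        T φ s = ∑ g ∈ E, ((k g * θ s (s * g) : ℝ) : ℂ) * φ (s * g))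
    (σ : G → (lp (fun _ : G => ℂ) 2 →L[ℂ] lp (fun _ : G => ℂ) 2))
    (hσ : ∀ (t : G) (φ : lp (fun _ : G => ℂ) 2) (s : G), σ t φ s = φ (t⁻¹ * s))
    (B : lp (fun _ : G => ℂ) 2 →L[ℂ] lp (fun _ : G => ℂ) 2)
    (hB : ∀ t, B * σ t = σ t * B) : 1 / 8 ≤ ‖T - B‖ ^ 2 := by
  classical
  obtain ⟨sg, hs_self, hs_ne, hs_inner, hsn⟩ :
      ∃ sg : G → lp (fun _ : G => ℂ) 2,
        (∀ v, sg v v = 1) ∧ (∀ v s, s ≠ v → sg v s = 0) ∧
        (∀ v f, inner ℂ (sg v) f = f v) ∧ ∀ v, ‖sg v‖ = 1 := by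
    refine ⟨fun v => lp.single (E := fun _ : G => ℂ) 2 v (1 : ℂ), ?_, ?_, ?_, ?_⟩
    · intro v; exact lp.single_apply_self _ _ _
    · intro v s hs; exact lp.single_apply_ne _ _ _ hs
    · intro v f
      rw [lp.inner_single_left]
      simp
    · intro v
      rw [lp.norm_single (by norm_num)]
      simp
  set U := T - B with hU
  have hlp : ∀ (f : lp (fun _ : G => ℂ) 2) (s : Finset G),
      ∑ i ∈ s, ‖f i‖ ^ 2 ≤ ‖f‖ ^ 2 := by
    intro f s
    have := lp.sum_rpow_le_norm_rpow (p := 2) (by norm_num) f s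
    simpa using this
  -- column
  have hcolU : ∑ g ∈ E, ‖U (sg 1) g⁻¹‖ ^ 2 ≤ ‖U‖ ^ 2 := by
    have h1 := hlp (U (sg 1)) (E.image fun g => g⁻¹)
    rw [Finset.sum_image (fun a _ b _ h => inv_injective h)] at h1
    refine h1.trans ?_
    have h2 := U.le_opNorm (sg 1)
    rw [hsn, mul_one] at h2
    exact pow_le_pow_left₀ (norm_nonneg _) h2 2
  -- row
  have hrowU : ∑ g ∈ E, ‖U (sg g) 1‖ ^ 2 ≤ ‖U‖ ^ 2 := by
    have key : ∀ g, ‖U (sg g) 1‖ = ‖ContinuousLinearMap.adjoint U (sg 1) g‖ := by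
      intro g
      rw [← hs_inner 1 (U (sg g)), ← hs_inner g (ContinuousLinearMap.adjoint U (sg 1)),
        ContinuousLinearMap.adjoint_inner_right, ← inner_conj_symm, RCLike.norm_conj]
    simp_rw [key]
    refine (hlp _ _).trans ?_
    have h2 := (ContinuousLinearMap.adjoint U).le_opNorm (sg 1)
    rw [hsn, mul_one, LinearIsometryEquiv.norm_map] at h2
    exact pow_le_pow_left₀ (norm_nonneg _) h2 2
  -- values
  have hTc : ∀ g ∈ E, (T (sg 1) : G → ℂ) g⁻¹ = ((k g * θ g⁻¹ 1 : ℝ) : ℂ) := by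
    intro g hg
    rw [hT, Finset.sum_eq_single g]
    · rw [inv_mul_cancel, hs_self, mul_one]
    · intro h _ hne
      have : (sg 1 : G → ℂ) (g⁻¹ * h) = 0 := by
        apply hs_ne
        intro h1
        exact hne (inv_mul_eq_one.1 h1).symm
      rw [this, mul_zero]
    · intro h; exact absurd hg h
  have hTr : ∀ g ∈ E, (T (sg g) : G → ℂ) 1 = ((k g * θ 1 g : ℝ) : ℂ) := by
    intro g hg
    rw [hT, Finset.sum_eq_single g]
    · rw [one_mul, hs_self, mul_one]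
    · intro h _ hne
      have : (sg g : G → ℂ) (1 * h) = 0 := by
        apply hs_ne
        rwa [one_mul]
      rw [this, mul_zero]
    · intro h; exact absurd hg h
  have hBr : ∀ g, (B (sg g) : G → ℂ) 1 = B (sg 1) g⁻¹ := by
    intro g
    have e1 : sg g = σ g (sg 1) := by
      refine lp.ext ?_
      funext s
      rw [hσ]
      by_cases h : s = g
      · subst h
        rw [hs_self, inv_mul_cancel, hs_self]
      · rw [hs_ne _ _ h, hs_ne]
        intro h1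
        exact h (inv_mul_eq_one.1 h1).symm
    rw [e1]
    have := congrArg (fun L => L (sg 1)) (hB g)
    have h2 : B (σ g (sg 1)) = σ g (B (sg 1)) := this
    rw [h2, hσ, mul_one]
  -- combine
  have hpt : ∀ g ∈ E, (k g * (θ g⁻¹ 1 - θ 1 g)) ^ 2 ≤
      2 * ‖U (sg 1) g⁻¹‖ ^ 2 + 2 * ‖U (sg g) 1‖ ^ 2 := by
    intro g hg
    have e1 : (((k g * (θ g⁻¹ 1 - θ 1 g) : ℝ)) : ℂ) = U (sg 1) g⁻¹ - U (sg g) 1 := by
      have a1 : U (sg 1) g⁻¹ = T (sg 1) g⁻¹ - B (sg 1) g⁻¹ := rfl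
      have a2 : U (sg g) 1 = T (sg g) 1 - B (sg g) 1 := rfl
      rw [a1, a2, hTc g hg, hTr g hg, hBr]
      push_cast
      ring
    have e2 : (k g * (θ g⁻¹ 1 - θ 1 g)) ^ 2 = ‖U (sg 1) g⁻¹ - U (sg g) 1‖ ^ 2 := by
      rw [← e1, Complex.norm_real, Real.norm_eq_abs, sq_abs]
    rw [e2]
    have h1 := norm_sub_le (U (sg 1) g⁻¹) (U (sg g) 1)
    have h2 := pow_le_pow_left₀ (norm_nonneg _) h1 2
    nlinarith [sq_nonneg (‖U (sg 1) g⁻¹‖ - ‖U (sg g) 1‖)]
  have h3 := Finset.sum_le_sum hpt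
  rw [Finset.sum_add_distrib, ← Finset.mul_sum, ← Finset.mul_sum] at h3
  linarith

end Pool.Agent.Y738.DX
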