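import Mathlib
set_option autoImplicit false

namespace Pool.Agent.Y738.DX

/-- Schur test for operators `(W φ)(s) = ∑ g ∈ E, a(s,g) φ(s g)` on `ℓ²(G)`. -/
theorem schur {G : Type} [Group G] (E : Finset G)
    (W : lp (fun _ : G => ℂ) 2 →L[ℂ] lp (fun _ : G => ℂ) 2)
    (a b : G → G → ℝ) (hb : ∀ s, ∀ g ∈ E, |a s g| ≤ b s g)
    (hW : ∀ (φ : lp (fun _ : G => ℂ) 2) (s : G), W φ s = ∑ g ∈ E, ((a s g : ℝ) : ℂ) * φ (s * g))
    (ω : G → ℝ) (hω : ∀ s, 0 < ω s) (C : ℝ) (hC : 0 ≤ C)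
    (hrow : ∀ s, ∑ g ∈ E, b s g * ω (s * g) ≤ C * ω s)
    (hcol : ∀ v, ∑ g ∈ E, b (v * g⁻¹) g * ω (v * g⁻¹) ≤ C * ω v) : ‖W‖ ≤ C := by
  classical
  have hb0 : ∀ s, ∀ g ∈ E, 0 ≤ b s g := fun s g hg => (abs_nonneg _).trans (hb s g hg)
  refine ContinuousLinearMap.opNorm_le_bound _ hC fun φ => ?_
  have hlp : ∀ (s : Finset G), ∑ i ∈ s, ‖φ i‖ ^ 2 ≤ ‖φ‖ ^ 2 := by
    intro s
    have := lp.sum_rpow_le_norm_rpow (p := 2) (by norm_num) φ s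
    simpa using this
  refine lp.norm_le_of_forall_sum_le (p := 2) (by norm_num) (by positivity) fun S => ?_
  have e2 : (2 : ENNReal).toReal = ((2 : ℕ) : ℝ) := by norm_num
  simp only [e2, Real.rpow_natCast]
  -- pointwise
  have h1 : ∀ s, ‖W φ s‖ ^ 2 ≤ C * ω s * ∑ g ∈ E, b s g * (‖φ (s * g)‖ ^ 2 / ω (s * g)) := by
    intro s
    have h2 : ‖W φ s‖ ≤ ∑ g ∈ E, b s g * ‖φ (s * g)‖ := by
      rw [hW]
      refine (norm_sum_le _ _).trans (Finset.sum_le_sum fun g hg => ?_)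
      rw [norm_mul, Complex.norm_real, Real.norm_eq_abs]
      exact mul_le_mul_of_nonneg_right (hb s g hg) (norm_nonneg _)
    have h3 : (∑ g ∈ E, b s g * ‖φ (s * g)‖) ^ 2 ≤
        (∑ g ∈ E, b s g * ω (s * g)) * ∑ g ∈ E, b s g * (‖φ (s * g)‖ ^ 2 / ω (s * g)) := by
      refine Finset.sum_sq_le_sum_mul_sum_of_sq_eq_mul E
        (fun g hg => mul_nonneg (hb0 s g hg) (hω _).le)
        (fun g hg => mul_nonneg (hb0 s g hg) (div_nonneg (sq_nonneg _) (hω _).le))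
        (fun g hg => ?_)
      have := (hω (s * g)).ne'
      field_simp
    calc ‖W φ s‖ ^ 2 ≤ (∑ g ∈ E, b s g * ‖φ (s * g)‖) ^ 2 :=
          pow_le_pow_left₀ (norm_nonneg _) h2 2
      _ ≤ _ := h3
      _ ≤ _ := mul_le_mul_of_nonneg_right (hrow s) (Finset.sum_nonneg fun g hg =>
          mul_nonneg (hb0 s g hg) (div_nonneg (sq_nonneg _) (hω _).le))
  set V : Finset G := (S ×ˢ E).image fun p => p.1 * p.2 with hV
  have h4 : ∑ s ∈ S, ω s * ∑ g ∈ E, b s g * (‖φ (s * g)‖ ^ 2 / ω (s * g)) ≤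
      ∑ v ∈ V, ∑ g ∈ E, (b (v * g⁻¹) g * ω (v * g⁻¹)) * (‖φ v‖ ^ 2 / ω v) := by
    rw [Finset.sum_comm]
    simp_rw [Finset.mul_sum]
    rw [Finset.sum_comm]
    refine Finset.sum_le_sum fun g hg => ?_
    have h5 : ∑ s ∈ S, ω s * (b s g * (‖φ (s * g)‖ ^ 2 / ω (s * g))) =
        ∑ v ∈ S.image (fun s => s * g), (b (v * g⁻¹) g * ω (v * g⁻¹)) * (‖φ v‖ ^ 2 / ω v) := by
      rw [Finset.sum_image (fun x _ y _ h => mul_right_cancel h)]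
      refine Finset.sum_congr rfl fun s _ => ?_
      rw [mul_inv_cancel_right]
      ring
    rw [h5]
    refine Finset.sum_le_sum_of_subset_of_nonneg ?_ fun v _ _ =>
      mul_nonneg (mul_nonneg (hb0 _ g hg) (hω _).le) (div_nonneg (sq_nonneg _) (hω _).le)
    intro v hv
    rw [Finset.mem_image] at hv
    obtain ⟨s, hs, rfl⟩ := hv
    rw [hV, Finset.mem_image]
    exact ⟨(s, g), Finset.mem_product.2 ⟨hs, hg⟩, rfl⟩
  have h6 : ∑ v ∈ V, ∑ g ∈ E, (b (v * g⁻¹) g * ω (v * g⁻¹)) * (‖φ v‖ ^ 2 / ω v) ≤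
      C * ‖φ‖ ^ 2 := by
    calc _ = ∑ v ∈ V, (∑ g ∈ E, b (v * g⁻¹) g * ω (v * g⁻¹)) * (‖φ v‖ ^ 2 / ω v) := by
          simp_rw [Finset.sum_mul]
      _ ≤ ∑ v ∈ V, (C * ω v) * (‖φ v‖ ^ 2 / ω v) := Finset.sum_le_sum fun v _ =>
          mul_le_mul_of_nonneg_right (hcol v) (div_nonneg (sq_nonneg _) (hω _).le)
      _ = C * ∑ v ∈ V, ‖φ v‖ ^ 2 := by
          rw [Finset.mul_sum]
          refine Finset.sum_congr rfl fun v _ => ?_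
          have := (hω v).ne'
          field_simp
      _ ≤ _ := mul_le_mul_of_nonneg_left (hlp V) hC
  calc ∑ s ∈ S, ‖W φ s‖ ^ 2
      ≤ ∑ s ∈ S, C * (ω s * ∑ g ∈ E, b s g * (‖φ (s * g)‖ ^ 2 / ω (s * g))) :=
        Finset.sum_le_sum fun s _ => (h1 s).trans_eq (by ring)
    _ = C * ∑ s ∈ S, ω s * ∑ g ∈ E, b s g * (‖φ (s * g)‖ ^ 2 / ω (s * g)) := by
        rw [Finset.mul_sum]
    _ ≤ C * (C * ‖φ‖ ^ 2) := mul_le_mul_of_nonneg_left (h4.trans h6) hC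
    _ = (C * ‖φ‖) ^ 2 := by ring

end Pool.Agent.Y738.DX
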