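import Mathlib
import Pool.Agent.TH278.DX.Dist
import Pool.Agent.TH570.J5176
import Pool.Agent.Y738.DX.Schur
import Pool.Agent.Y738.DX.Far
set_option autoImplicit false

namespace Pool.Agent.Y738.DX

open Pool.Agent.TH278.DX (inner_unitary)
open Pool.Agent.TH570.J5176 (exists_op)

/-- A linear ramp from `0` at `-R` to `1` at `R`. -/
noncomputable def ramp (R x : ℝ) : ℝ := max 0 (min 1 ((x + R) / (2 * R)))

theorem ramp_nonneg (R x : ℝ) : 0 ≤ ramp R x := le_max_left _ _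

theorem ramp_le_one (R x : ℝ) : ramp R x ≤ 1 := max_le zero_le_one (min_le_left _ _)

theorem ramp_one {R x : ℝ} (hR : 0 < R) (hx : R ≤ x) : ramp R x = 1 := by
  unfold ramp
  have h1 : 1 ≤ (x + R) / (2 * R) := by
    rw [le_div_iff₀ (by positivity)]
    linarith
  rw [min_eq_left h1]
  exact max_eq_right zero_le_one

theorem ramp_zero {R x : ℝ} (hR : 0 < R) (hx : x ≤ -R) : ramp R x = 0 := by
  unfold ramp
  have h1 : (x + R) / (2 * R) ≤ 0 := div_nonpos_of_nonpos_of_nonneg (by linarith) (by positivity)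
  exact max_eq_left ((min_le_right _ _).trans h1)

theorem ramp_lip {R : ℝ} (hR : 0 < R) (x y : ℝ) : |ramp R x - ramp R y| ≤ |x - y| / (2 * R) := by
  unfold ramp
  have h1 : |max 0 (min 1 ((x + R) / (2 * R))) - max 0 (min 1 ((y + R) / (2 * R)))| ≤
      |min 1 ((x + R) / (2 * R)) - min 1 ((y + R) / (2 * R))| := by
    have := abs_max_sub_max_le_max 0 (min 1 ((x + R) / (2 * R))) 0 (min 1 ((y + R) / (2 * R)))
    simpa using this
  have h2 : |min 1 ((x + R) / (2 * R)) - min 1 ((y + R) / (2 * R))| ≤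
      |(x + R) / (2 * R) - (y + R) / (2 * R)| := by
    have := abs_min_sub_min_le_max 1 ((x + R) / (2 * R)) 1 ((y + R) / (2 * R))
    simpa using this
  refine h1.trans (h2.trans (le_of_eq ?_))
  have h3 : (x + R) / (2 * R) - (y + R) / (2 * R) = (x - y) / (2 * R) := by
    rw [← sub_div]
    congr 1
    ring
  rw [h3, abs_div, abs_of_pos (show 0 < 2 * R by positivity)]

theorem mean_ineq_aux {A B : ℝ} (hA : 0 < A) (hB : 0 < B) (hAB : B ≤ A) :
    |Real.log A - Real.log B| * Real.sqrt (A * B) ≤ 3 / 4 * (A + B) := by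
  have hx : 0 ≤ Real.log A - Real.log B := sub_nonneg.2 (Real.log_le_log hB hAB)
  obtain ⟨x, hx'⟩ : ∃ x, x = Real.log A - Real.log B := ⟨_, rfl⟩
  rw [← hx'] at hx ⊢
  have hs : Real.sqrt (A * B) = A * Real.exp (-x / 2) := by
    rw [Real.sqrt_eq_iff_mul_self_eq (by positivity) (by positivity)]
    have e1 : A * Real.exp (-x / 2) * (A * Real.exp (-x / 2)) = A * (A * Real.exp (-x)) := by
      have : Real.exp (-x) = Real.exp (-x / 2) * Real.exp (-x / 2) := by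
        rw [← Real.exp_add]; congr 1; ring
      rw [this]; ring
    rw [e1]
    congr 1
    rw [hx', neg_sub, Real.exp_sub, Real.exp_log hA, Real.exp_log hB]
    field_simp
  rw [hs, abs_of_nonneg hx]
  have h1 : x / 2 ≤ Real.exp (x / 2 - 1) := by
    have := Real.add_one_le_exp (x / 2 - 1)
    linarith
  have h2 : x * Real.exp (-x / 2) ≤ 2 * Real.exp (-1) := by
    have h3 : Real.exp (x / 2 - 1) * Real.exp (-x / 2) = Real.exp (-1) := by
      rw [← Real.exp_add]; congr 1; ring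
    have h4 := mul_le_mul_of_nonneg_right h1 (Real.exp_pos (-x / 2)).le
    rw [h3] at h4
    linarith
  have h5 : Real.exp (-1) ≤ 3 / 8 := by
    have := Real.exp_neg_one_lt_d9
    linarith
  have h6 : x * Real.exp (-x / 2) ≤ 3 / 4 := by linarith
  calc x * (A * Real.exp (-x / 2)) = A * (x * Real.exp (-x / 2)) := by ring
    _ ≤ A * (3 / 4) := mul_le_mul_of_nonneg_left h6 hA.le
    _ ≤ _ := by linarith

theorem mean_ineq {A B : ℝ} (hA : 0 < A) (hB : 0 < B) :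
    |Real.log A - Real.log B| * Real.sqrt (A * B) ≤ 3 / 4 * (A + B) := by
  rcases le_total B A with h | h
  · exact mean_ineq_aux hA hB h
  · have := mean_ineq_aux hB hA h
    rwa [abs_sub_comm, mul_comm B A, add_comm B A] at this

/-- The commutators of the ramp operator. -/
theorem comm_bound {G : Type} [Group G] (E : Finset G) (hE : ∀ g, g ∈ E ↔ g⁻¹ ∈ E)
    (k : G → ℝ) (hk : ∀ g, 0 ≤ k g) (hks : ∀ g, k g⁻¹ = k g) (Λ : ℝ) (hΛ : 0 < Λ)
    (h : G → ℝ) (hh : ∀ s, 0 < h s) (hexc : ∀ s, ∑ g ∈ E, k g * h (s * g) ≤ 2 * Λ * h s)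
    (R : ℝ) (hR : 0 < R) (t : G) (W : lp (fun _ : G => ℂ) 2 →L[ℂ] lp (fun _ : G => ℂ) 2)
    (hW : ∀ (φ : lp (fun _ : G => ℂ) 2) (s : G), W φ s = ∑ g ∈ E,
      ((k g * (ramp R (Real.log (h (s * g)) - Real.log (h s)) -
        ramp R (Real.log (h (t * (s * g))) - Real.log (h (t * s)))) : ℝ) : ℂ) * φ (s * g)) :
    ‖W‖ ≤ 3 / 2 * Λ / R := by
  set D : G → G → ℝ := fun s v => (Real.log (h v) - Real.log (h s)) -
    (Real.log (h (t * v)) - Real.log (h (t * s))) with hDdef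
  set ω : G → ℝ := fun s => Real.sqrt (h s * h (t * s)) with hω
  have hωpos : ∀ s, 0 < ω s := fun s => Real.sqrt_pos.2 (mul_pos (hh _) (hh _))
  have hpt : ∀ s v, |D s v| * ω v ≤ 3 / 4 * (h v / h s + h (t * v) / h (t * s)) * ω s := by
    intro s v
    have hA : 0 < h v / h s := div_pos (hh _) (hh _)
    have hB : 0 < h (t * v) / h (t * s) := div_pos (hh _) (hh _)
    have h1 := mean_ineq hA hB
    have e1 : Real.log (h v / h s) - Real.log (h (t * v) / h (t * s)) = D s v := by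
      rw [Real.log_div (hh _).ne' (hh _).ne', Real.log_div (hh _).ne' (hh _).ne']
    have e2 : ω v = Real.sqrt (h v / h s * (h (t * v) / h (t * s))) * ω s := by
      rw [hω]
      simp only
      rw [← Real.sqrt_mul (mul_pos hA hB).le]
      congr 1
      have := (hh s).ne'
      have := (hh (t * s)).ne'
      field_simp
    rw [e1] at h1
    rw [e2, ← mul_assoc]
    exact mul_le_mul_of_nonneg_right h1 (hωpos s).le
  have hrow : ∀ s, ∑ g ∈ E, k g * (|D s (s * g)| / (2 * R)) * ω (s * g) ≤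
      3 / 2 * Λ / R * ω s := by
    intro s
    have h1 : ∀ g ∈ E, k g * (|D s (s * g)| / (2 * R)) * ω (s * g) ≤
        3 / (8 * R) * ω s * (k g * h (s * g) / h s + k g * h (t * s * g) / h (t * s)) := by
      intro g _
      have h2 := hpt s (s * g)
      calc k g * (|D s (s * g)| / (2 * R)) * ω (s * g)
          = k g / (2 * R) * (|D s (s * g)| * ω (s * g)) := by ring
        _ ≤ k g / (2 * R) * (3 / 4 * (h (s * g) / h s + h (t * (s * g)) / h (t * s)) * ω s) :=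
            mul_le_mul_of_nonneg_left h2 (div_nonneg (hk g) (by positivity))
        _ = _ := by
            rw [mul_assoc t s g]
            field_simp
            ring
    refine (Finset.sum_le_sum h1).trans ?_
    rw [← Finset.mul_sum, Finset.sum_add_distrib, ← Finset.sum_div, ← Finset.sum_div]
    have h3 : (∑ g ∈ E, k g * h (s * g)) / h s ≤ 2 * Λ := by
      rw [div_le_iff₀ (hh s)]
      exact hexc s
    have h4 : (∑ g ∈ E, k g * h (t * s * g)) / h (t * s) ≤ 2 * Λ := by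
      rw [div_le_iff₀ (hh _)]
      exact hexc (t * s)
    calc _ ≤ 3 / (8 * R) * ω s * (2 * Λ + 2 * Λ) :=
          mul_le_mul_of_nonneg_left (add_le_add h3 h4)
            (mul_nonneg (by positivity) (hωpos s).le)
      _ = _ := by
          field_simp
          ring
  have hDsymm : ∀ s v, |D s v| = |D v s| := by
    intro s v
    rw [← abs_neg]
    congr 1
    rw [hDdef]
    simp only
    ring
  refine schur E W (fun s g => k g * (ramp R (Real.log (h (s * g)) - Real.log (h s)) -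
    ramp R (Real.log (h (t * (s * g))) - Real.log (h (t * s)))))
    (fun s g => k g * (|D s (s * g)| / (2 * R))) ?_ hW ω hωpos _ (by positivity) hrow ?_
  · intro s g _
    rw [abs_mul, abs_of_nonneg (hk g)]
    exact mul_le_mul_of_nonneg_left (ramp_lip hR _ _) (hk g)
  · intro v
    refine le_trans (le_of_eq ?_) (hrow v)
    refine Finset.sum_bij' (fun g _ => g⁻¹) (fun g _ => g⁻¹) (fun g hg => (hE g).1 hg)
      (fun g hg => (hE g).1 hg) (fun g _ => inv_inv g) (fun g _ => inv_inv g) (fun g _ => ?_)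
    rw [inv_mul_cancel_right, hks, hDsymm (v * g⁻¹) v]

/-- The main inequality. -/
theorem core {G : Type} [Group G] (σ : G →* (lp (fun _ : G => ℂ) 2 →L[ℂ] lp (fun _ : G => ℂ) 2)ˣ)
    (hσu : ∀ g, ((σ g : (lp (fun _ : G => ℂ) 2 →L[ℂ] lp (fun _ : G => ℂ) 2)ˣ) :
        lp (fun _ : G => ℂ) 2 →L[ℂ] lp (fun _ : G => ℂ) 2) ∈
        unitary (lp (fun _ : G => ℂ) 2 →L[ℂ] lp (fun _ : G => ℂ) 2))
    (hσ : ∀ (t : G) (φ : lp (fun _ : G => ℂ) 2) (s : G),
        ((σ t : (lp (fun _ : G => ℂ) 2 →L[ℂ] lp (fun _ : G => ℂ) 2)ˣ) :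
          lp (fun _ : G => ℂ) 2 →L[ℂ] lp (fun _ : G => ℂ) 2) φ s = φ (t⁻¹ * s))
    (K : ℝ) (hD : ∀ (T : lp (fun _ : G => ℂ) 2 →L[ℂ] lp (fun _ : G => ℂ) 2) (d : ℝ),
      (∀ t, ‖((σ t : (lp (fun _ : G => ℂ) 2 →L[ℂ] lp (fun _ : G => ℂ) 2)ˣ) :
        lp (fun _ : G => ℂ) 2 →L[ℂ] lp (fun _ : G => ℂ) 2) * T - T *
        ((σ t : (lp (fun _ : G => ℂ) 2 →L[ℂ] lp (fun _ : G => ℂ) 2)ˣ) :
        lp (fun _ : G => ℂ) 2 →L[ℂ] lp (fun _ : G => ℂ) 2)‖ ≤ d) →
      ∃ B : lp (fun _ : G => ℂ) 2 →L[ℂ] lp (fun _ : G => ℂ) 2,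
        (∀ t, B * ((σ t : (lp (fun _ : G => ℂ) 2 →L[ℂ] lp (fun _ : G => ℂ) 2)ˣ) :
        lp (fun _ : G => ℂ) 2 →L[ℂ] lp (fun _ : G => ℂ) 2) =
        ((σ t : (lp (fun _ : G => ℂ) 2 →L[ℂ] lp (fun _ : G => ℂ) 2)ˣ) :
        lp (fun _ : G => ℂ) 2 →L[ℂ] lp (fun _ : G => ℂ) 2) * B) ∧ ‖T - B‖ ≤ K * d)
    (E : Finset G)
    (hE : ∀ g, g ∈ E ↔ g⁻¹ ∈ E) (k : G → ℝ) (hk : ∀ g, 0 ≤ k g) (hks : ∀ g, k g⁻¹ = k g)
    (hk1 : ∑ g ∈ E, k g ^ 2 = 1) (M Λ : ℝ) (hM : ∀ g ∈ E, k g ≤ M) (hM0 : 0 < M) (hΛ : 0 < Λ)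
    (h : G → ℝ) (hh : ∀ s, 0 < h s) (hexc : ∀ s, ∑ g ∈ E, k g * h (s * g) ≤ 2 * Λ * h s) :
    Real.log (1 / (8 * Λ * M)) ≤ 5 * K * Λ := by
  classical
  have hK0 : 0 ≤ K := by
    obtain ⟨B, _, hB⟩ := hD 0 1 (fun t => by simp)
    rw [mul_one] at hB
    exact (norm_nonneg _).trans hB
  rcases le_or_gt (Real.log (1 / (8 * Λ * M))) 0 with hneg | hRpos
  · exact hneg.trans (by positivity)
  set R : ℝ := Real.log (1 / (8 * Λ * M)) with hRdef
  have hML0 : 0 < 8 * Λ * M := by positivity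
  have hexpR : Real.exp R = 1 / (8 * Λ * M) := by
    rw [hRdef, Real.exp_log (by positivity)]
  let θ : G → G → ℝ := fun s v => ramp R (Real.log (h v) - Real.log (h s))
  have hθ : ∀ s v, |θ s v| ≤ 1 := fun s v => by
    rw [abs_of_nonneg (ramp_nonneg _ _)]
    exact ramp_le_one _ _
  obtain ⟨T, hT0⟩ := exists_op E (fun _ => (1 : ℂ →L[ℂ] ℂ)) k θ hθ
  have hT : ∀ (φ : lp (fun _ : G => ℂ) 2) (s : G),
      T φ s = ∑ g ∈ E, ((k g * θ s (s * g) : ℝ) : ℂ) * φ (s * g) := by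
    intro φ s
    rw [hT0]
    rfl
  -- commutators
  have hcomm : ∀ t, ‖((σ t : (lp (fun _ : G => ℂ) 2 →L[ℂ] lp (fun _ : G => ℂ) 2)ˣ) :
      lp (fun _ : G => ℂ) 2 →L[ℂ] lp (fun _ : G => ℂ) 2) * T - T *
      ((σ t : (lp (fun _ : G => ℂ) 2 →L[ℂ] lp (fun _ : G => ℂ) 2)ˣ) :
      lp (fun _ : G => ℂ) 2 →L[ℂ] lp (fun _ : G => ℂ) 2)‖ ≤ 3 / 2 * Λ / R := by
    intro t
    set U := ((σ t : (lp (fun _ : G => ℂ) 2 →L[ℂ] lp (fun _ : G => ℂ) 2)ˣ) :
      lp (fun _ : G => ℂ) 2 →L[ℂ] lp (fun _ : G => ℂ) 2) with hU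
    set U' := ((σ t⁻¹ : (lp (fun _ : G => ℂ) 2 →L[ℂ] lp (fun _ : G => ℂ) 2)ˣ) :
      lp (fun _ : G => ℂ) 2 →L[ℂ] lp (fun _ : G => ℂ) 2) with hU'
    have hUU' : U * U' = 1 := by
      rw [hU, hU', map_inv]
      exact (σ t).mul_inv
    set W := T - U' * T * U with hW
    have hWf : ∀ (φ : lp (fun _ : G => ℂ) 2) (s : G), W φ s = ∑ g ∈ E,
        ((k g * (ramp R (Real.log (h (s * g)) - Real.log (h s)) -
        ramp R (Real.log (h (t * (s * g))) - Real.log (h (t * s)))) : ℝ) : ℂ) * φ (s * g) := by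
      intro φ s
      have e1 : (U' * T * U) φ s = ∑ g ∈ E,
          ((k g * θ (t * s) (t * (s * g)) : ℝ) : ℂ) * φ (s * g) := by
        change (U' (T (U φ))) s = _
        rw [hU', hσ, hT, inv_inv]
        apply Finset.sum_congr rfl
        intro g _
        rw [hU, hσ]
        congr 3
        · rw [mul_assoc]
        · group
      have e2 : W φ s = T φ s - (U' * T * U) φ s := rfl
      rw [e2, e1, hT, ← Finset.sum_sub_distrib]
      apply Finset.sum_congr rfl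
      intro g _
      rw [← sub_mul, ← Complex.ofReal_sub, ← mul_sub]
    have hWn := comm_bound E hE k hk hks Λ hΛ h hh hexc R hRpos t W hWf
    have e3 : U * T - T * U = U * W := by
      rw [hW, mul_sub, ← mul_assoc, ← mul_assoc, hUU', one_mul]
    rw [e3]
    have hUn : ‖U‖ ≤ 1 := by
      refine ContinuousLinearMap.opNorm_le_bound _ zero_le_one fun x => ?_
      rw [one_mul]
      have h1 : ‖U x‖ ^ 2 = ‖x‖ ^ 2 := by
        rw [← inner_self_eq_norm_sq (𝕜 := ℂ), ← inner_self_eq_norm_sq (𝕜 := ℂ),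
          inner_unitary (hσu t)]
      exact (pow_le_pow_iff_left₀ (norm_nonneg _) (norm_nonneg _) two_ne_zero).1 h1.le
    calc ‖U * W‖ ≤ ‖U‖ * ‖W‖ := norm_mul_le _ _
      _ ≤ 1 * (3 / 2 * Λ / R) := mul_le_mul hUn hWn (norm_nonneg _) zero_le_one
      _ = _ := one_mul _
  obtain ⟨B₀, hB₀, hdist⟩ := hD T (3 / 2 * Λ / R) hcomm
  -- the gap
  have hbad : ∀ (P : G → Prop) [DecidablePred P],
      (∀ g, P g → Real.exp (-R) * h 1 ≤ h g) →
      ∑ g ∈ E.filter P, k g ^ 2 ≤ 1 / 4 := by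
    intro P _ hP
    have h1 : ∑ g ∈ E.filter P, k g * (Real.exp (-R) * h 1) ≤ 2 * Λ * h 1 := by
      calc _ ≤ ∑ g ∈ E.filter P, k g * h (1 * g) := Finset.sum_le_sum fun g hg => by
            rw [one_mul]
            exact mul_le_mul_of_nonneg_left (hP g (Finset.mem_filter.1 hg).2) (hk g)
        _ ≤ ∑ g ∈ E, k g * h (1 * g) := Finset.sum_le_sum_of_subset_of_nonneg
            (Finset.filter_subset _ _) fun g _ _ => mul_nonneg (hk g) (hh _).le
        _ ≤ _ := hexc 1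
    rw [← Finset.sum_mul, ← mul_assoc] at h1
    have h2 : (∑ g ∈ E.filter P, k g) * Real.exp (-R) ≤ 2 * Λ :=
      le_of_mul_le_mul_right h1 (hh 1)
    have h3 : Real.exp (-R) = 8 * Λ * M := by
      rw [Real.exp_neg, hexpR, one_div, inv_inv]
    rw [h3] at h2
    have h4 : (∑ g ∈ E.filter P, k g) * M ≤ 1 / 4 := by
      have h5 : (8 * Λ) * ((∑ g ∈ E.filter P, k g) * M) ≤ (8 * Λ) * (1 / 4) := by linarith
      exact le_of_mul_le_mul_left h5 (by positivity)
    calc ∑ g ∈ E.filter P, k g ^ 2 ≤ ∑ g ∈ E.filter P, k g * M :=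
          Finset.sum_le_sum fun g hg => by
            rw [sq]
            exact mul_le_mul_of_nonneg_left (hM g (Finset.mem_filter.1 hg).1) (hk g)
      _ = (∑ g ∈ E.filter P, k g) * M := by rw [Finset.sum_mul]
      _ ≤ _ := h4
  have hgap : 1 / 2 ≤ ∑ g ∈ E, (k g * (θ g⁻¹ 1 - θ 1 g)) ^ 2 := by
    set P1 : G → Prop := fun g => Real.exp (-R) * h 1 ≤ h g with hP1
    set P2 : G → Prop := fun g => Real.exp (-R) * h 1 ≤ h g⁻¹ with hP2
    have b1 := hbad P1 (fun g hg => hg)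
    have b2 : ∑ g ∈ E.filter P2, k g ^ 2 ≤ 1 / 4 := by
      refine le_trans (le_of_eq ?_) b1
      refine Finset.sum_bij' (fun g _ => g⁻¹) (fun g _ => g⁻¹) (fun g hg => ?_)
        (fun g hg => ?_) (fun g _ => inv_inv g) (fun g _ => inv_inv g) (fun g _ => ?_)
      · rw [Finset.mem_filter] at hg ⊢
        exact ⟨(hE g).1 hg.1, hg.2⟩
      · rw [Finset.mem_filter] at hg ⊢
        refine ⟨(hE g).1 hg.1, ?_⟩
        rw [hP2]
        simp only
        rw [inv_inv]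
        exact hg.2
      · rw [hks]
    have hpt : ∀ g ∈ E, k g ^ 2 ≤ (k g * (θ g⁻¹ 1 - θ 1 g)) ^ 2 +
        ((if P1 g then k g ^ 2 else 0) + (if P2 g then k g ^ 2 else 0)) := by
      intro g _
      by_cases c1 : P1 g
      · rw [if_pos c1]
        have : 0 ≤ (if P2 g then k g ^ 2 else 0) := by
          split_ifs <;> positivity
        nlinarith [sq_nonneg (k g * (θ g⁻¹ 1 - θ 1 g))]
      · by_cases c2 : P2 g
        · rw [if_neg c1, if_pos c2]
          nlinarith [sq_nonneg (k g * (θ g⁻¹ 1 - θ 1 g))]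
        · rw [if_neg c1, if_neg c2]
          have hlog : ∀ x : G, ¬ (Real.exp (-R) * h 1 ≤ h x) →
              Real.log (h x) - Real.log (h 1) ≤ -R := by
            intro x hx
            have h1 := Real.log_le_log (hh x) (not_le.1 hx).le
            rw [Real.log_mul (Real.exp_pos _).ne' (hh 1).ne', Real.log_exp] at h1
            linarith
          have t1 : θ 1 g = 0 := ramp_zero hRpos (hlog g c1)
          have t2 : θ g⁻¹ 1 = 1 := by
            apply ramp_one hRpos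
            have := hlog g⁻¹ c2
            linarith
          rw [t1, t2]
          apply le_of_eq
          ring
    have h1 := Finset.sum_le_sum hpt
    rw [Finset.sum_add_distrib, Finset.sum_add_distrib, ← Finset.sum_filter,
      ← Finset.sum_filter, hk1] at h1
    linarith
  have hfar : ∀ B : lp (fun _ : G => ℂ) 2 →L[ℂ] lp (fun _ : G => ℂ) 2,
      (∀ t, B * ((σ t : (lp (fun _ : G => ℂ) 2 →L[ℂ] lp (fun _ : G => ℂ) 2)ˣ) :
        lp (fun _ : G => ℂ) 2 →L[ℂ] lp (fun _ : G => ℂ) 2) =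
      ((σ t : (lp (fun _ : G => ℂ) 2 →L[ℂ] lp (fun _ : G => ℂ) 2)ˣ) :
        lp (fun _ : G => ℂ) 2 →L[ℂ] lp (fun _ : G => ℂ) 2) * B) → 7 / 20 ≤ ‖T - B‖ := by
    intro B hB
    have h1 := far E k θ hgap T hT (fun t =>
      ((σ t : (lp (fun _ : G => ℂ) 2 →L[ℂ] lp (fun _ : G => ℂ) 2)ˣ) :
        lp (fun _ : G => ℂ) 2 →L[ℂ] lp (fun _ : G => ℂ) 2)) hσ B hB
    nlinarith [norm_nonneg (T - B)]
  have h1 : 7 / 20 ≤ K * (3 / 2 * Λ / R) := (hfar B₀ hB₀).trans hdist
  have h2 : 7 / 20 * R ≤ K * (3 / 2 * Λ) := by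
    have := mul_le_mul_of_nonneg_right h1 hRpos.le
    have e : K * (3 / 2 * Λ / R) * R = K * (3 / 2 * Λ) := by field_simp
    linarith
  nlinarith [mul_nonneg hK0 hΛ.le]

end Pool.Agent.Y738.DX
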