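import Mathlib
import Pool.Agent.TH542.J4948
set_option autoImplicit false

namespace Pool.Agent.Y738.DX

open Pool.Agent.TH542.J4948

theorem inner_R {G : Type} [Group G] (g : G) (x y : lp (fun _ : G => ℝ) 2) :
    inner ℝ (R g x) y = inner ℝ x (R g⁻¹ y) := by
  rw [lp.inner_eq_tsum, lp.inner_eq_tsum]
  have h := Equiv.tsum_eq (Equiv.mulRight g)
    (fun s => inner ℝ ((x : G → ℝ) s) ((y : G → ℝ) (s * g⁻¹)))
  refine Eq.trans ?_ h
  refine tsum_congr fun s => ?_
  simp only [Pool.Agent.TH542.J4948.R_apply, Equiv.coe_mulRight, mul_inv_cancel_right]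

theorem inner_T {G : Type} [Group G] (F : MonoidAlgebra ℝ G) (hsym : ∀ g, F.coeff g⁻¹ = F.coeff g)
    (x y : lp (fun _ : G => ℝ) 2) : inner ℝ (T F x) y = inner ℝ x (T F y) := by
  classical
  have h1 : ∀ z : lp (fun _ : G => ℝ) 2, T F z = ∑ g ∈ F.coeff.support, F.coeff g • R g z := by
    intro z
    rw [T_eq, Finsupp.sum]
    simp
  rw [h1, h1, sum_inner, inner_sum]
  have hs : ∀ g, g ∈ F.coeff.support ↔ g⁻¹ ∈ F.coeff.support := by
    intro g
    rw [Finsupp.mem_support_iff, Finsupp.mem_support_iff, hsym]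
  refine Finset.sum_bij' (fun g _ => g⁻¹) (fun g _ => g⁻¹) (fun g hg => (hs g).1 hg)
    (fun g hg => (hs g).1 hg) (fun g _ => inv_inv g) (fun g _ => inv_inv g) (fun g _ => ?_)
  rw [real_inner_smul_left, real_inner_smul_right, hsym, inner_R]

open scoped Classical in
/-- The norm of `F ^ n` in `ℓ²` is the square root of the return weight. -/
theorem norm_iter {G : Type} [Group G] (F : MonoidAlgebra ℝ G)
    (hsym : ∀ g, F.coeff g⁻¹ = F.coeff g) (n : ℕ) :
    ‖(T F ^ n) (lp.single 2 (1 : G) (1 : ℝ))‖ ^ 2 = (F ^ (2 * n)).coeff 1 := by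
  have h1 : ∀ (m : ℕ) (x y : lp (fun _ : G => ℝ) 2),
      inner ℝ ((T F ^ m) x) y = inner ℝ x ((T F ^ m) y) := by
    intro m
    induction m with
    | zero => intro x y; simp
    | succ m ih =>
      intro x y
      rw [pow_succ]
      change inner ℝ ((T F ^ m) (T F x)) y = inner ℝ x ((T F ^ m * T F) y)
      rw [ih, inner_T F hsym, ← pow_succ, pow_succ']
      rfl
  rw [← real_inner_self_eq_norm_sq, h1]
  have h2 : (T F ^ n) ((T F ^ n) (lp.single 2 (1 : G) (1 : ℝ))) =
      T (F ^ (2 * n)) (lp.single 2 (1 : G) (1 : ℝ)) := by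
    rw [T_pow, two_mul, pow_add]
    rfl
  have h3 : ∀ x : ℝ, inner ℝ (1 : ℝ) x = x := by
    intro x
    simp
  rw [h2, lp.inner_single_left, T_apply, h3, Finsupp.sum]
  simp only [one_mul]
  rw [Finset.sum_eq_single (1 : G)]
  · simp
  · intro b _ hb
    rw [lp.single_apply_ne _ _ _ hb, mul_zero]
  · intro h
    rw [Finsupp.notMem_support_iff.1 h, zero_mul]

/-- An excessive function from return weights. -/
theorem excessive_of_returns {G : Type} [Group G] (F : MonoidAlgebra ℝ G)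
    (hF : ∀ g, 0 ≤ F.coeff g) (hsym : ∀ g, F.coeff g⁻¹ = F.coeff g) (δ : ℝ)
    (hδ : 0 < δ) (hret : ∀ n : ℕ, (F ^ (2 * n)).coeff 1 ≤ δ ^ (2 * n)) :
    ∃ h : G → ℝ, (∀ s, 0 < h s) ∧
      ∀ s, ∑ g ∈ F.coeff.support, F.coeff g * h (s * g) ≤ 2 * δ * h s := by
  classical
  obtain ⟨u, hu0, hu1, hun⟩ : ∃ u : ℕ → lp (fun _ : G => ℝ) 2,
      u 0 = lp.single 2 (1 : G) (1 : ℝ) ∧ (∀ n, u (n + 1) = T F (u n)) ∧
      ∀ n, u n = (T F ^ n) (lp.single 2 (1 : G) (1 : ℝ)) := by
    refine ⟨fun n => (T F ^ n) (lp.single 2 (1 : G) (1 : ℝ)), rfl, fun n => ?_, fun n => rfl⟩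
    show (T F ^ (n + 1)) _ = _
    rw [pow_succ']
    rfl
  have hTF' : ∀ n (s : G), u (n + 1) s = ∑ g ∈ F.coeff.support, F.coeff g * u n (s * g) := by
    intro n s
    rw [hu1, T_apply]
    rfl
  -- positivity
  have hnn : ∀ n (s : G), 0 ≤ u n s := by
    intro n
    induction n with
    | zero =>
      intro s
      rw [hu0, lp.single_apply]
      by_cases h : s = 1
      · subst h; simp
      · rw [Pi.single_eq_of_ne h]
    | succ n ih =>
      intro s
      rw [hTF']
      exact Finset.sum_nonneg fun g _ => mul_nonneg (hF g) (ih _)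
  -- norms
  have hnorm : ∀ n, ‖u n‖ ≤ δ ^ n := by
    intro n
    have h1 : ‖u n‖ ^ 2 ≤ (δ ^ n) ^ 2 := by
      rw [hun, norm_iter F hsym, ← pow_mul, mul_comm n 2]
      exact hret n
    exact (sq_le_sq₀ (norm_nonneg _) (pow_nonneg hδ.le _)).1 h1
  obtain ⟨c, hc⟩ : ∃ c : ℝ, c = (2 * δ)⁻¹ := ⟨_, rfl⟩
  have hc0 : 0 < c := by rw [hc]; positivity
  have hcδ : 2 * δ * c = 1 := by rw [hc]; field_simp
  have hcδ' : c * δ = 1 / 2 := by linarith
  have hterm : ∀ n (s : G), 0 ≤ c ^ n * u n s := fun n s => mul_nonneg (pow_nonneg hc0.le _) (hnn n s)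
  have hbound : ∀ n (s : G), c ^ n * u n s ≤ (1 / 2) ^ n := by
    intro n s
    have h1 : u n s ≤ δ ^ n := by
      have h2 := lp.norm_apply_le_norm (by norm_num : (2 : ENNReal) ≠ 0) (u n) s
      rw [Real.norm_of_nonneg (hnn n s)] at h2
      exact h2.trans (hnorm n)
    calc c ^ n * u n s ≤ c ^ n * δ ^ n := mul_le_mul_of_nonneg_left h1 (pow_nonneg hc0.le _)
      _ = (1 / 2) ^ n := by rw [← mul_pow, hcδ']
  have hsum : ∀ s : G, Summable fun n => c ^ n * u n s := fun s =>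
    Summable.of_nonneg_of_le (fun n => hterm n s) (fun n => hbound n s)
      (summable_geometric_of_lt_one (by norm_num) (by norm_num))
  obtain ⟨h0, hh0⟩ : ∃ h0 : G → ℝ, ∀ s, h0 s = ∑' n, c ^ n * u n s := ⟨_, fun _ => rfl⟩
  -- the inequality
  have hineq : ∀ s, ∑ g ∈ F.coeff.support, F.coeff g * h0 (s * g) ≤ 2 * δ * h0 s := by
    intro s
    have e1 : ∑ g ∈ F.coeff.support, F.coeff g * h0 (s * g) = ∑' n, c ^ n * u (n + 1) s := by
      have e2 : ∀ g ∈ F.coeff.support, F.coeff g * h0 (s * g) =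
          ∑' n, F.coeff g * (c ^ n * u n (s * g)) := by
        intro g _
        rw [hh0, tsum_mul_left]
      rw [Finset.sum_congr rfl e2, ← Summable.tsum_finsetSum fun g _ => (hsum (s * g)).mul_left _]
      refine tsum_congr fun n => ?_
      rw [hTF', Finset.mul_sum]
      refine Finset.sum_congr rfl fun g _ => ?_
      ring
    have e3 : h0 s = c ^ 0 * u 0 s + ∑' n, c ^ (n + 1) * u (n + 1) s := by
      rw [hh0, (hsum s).tsum_eq_zero_add]
    have e4 : ∑' n, c ^ n * u (n + 1) s = 2 * δ * ∑' n, c ^ (n + 1) * u (n + 1) s := by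
      rw [← tsum_mul_left]
      refine tsum_congr fun n => ?_
      rw [pow_succ]
      linear_combination (-(c ^ n * u (n + 1) s)) * hcδ
    rw [e1, e4, e3, mul_add]
    have h5 : 0 ≤ 2 * δ * (c ^ 0 * u 0 s) := mul_nonneg (by positivity) (hterm 0 s)
    linarith
  -- positivity on the subgroup
  obtain ⟨S, hS⟩ : ∃ S : Subgroup G, S = Subgroup.closure (F.coeff.support : Set G) := ⟨_, rfl⟩
  have hpos1 : ∀ s ∈ S, ∃ n, 0 < u n s := by
    have hstep : ∀ s g : G, g ∈ F.coeff.support → (∃ n, 0 < u n s) → ∃ n, 0 < u n (s * g⁻¹) := by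
      rintro s g hg ⟨n, hn⟩
      refine ⟨n + 1, ?_⟩
      rw [hTF']
      refine Finset.sum_pos' (fun g' _ => mul_nonneg (hF g') (hnn _ _)) ⟨g, hg, ?_⟩
      rw [inv_mul_cancel_right]
      exact mul_pos (lt_of_le_of_ne (hF g) (Finsupp.mem_support_iff.1 hg).symm) hn
    have hsupp : ∀ g : G, g ∈ F.coeff.support → g⁻¹ ∈ F.coeff.support := by
      intro g hg
      rw [Finsupp.mem_support_iff] at hg ⊢
      rwa [hsym]
    intro s hs
    rw [hS] at hs
    induction hs using Subgroup.closure_induction_right with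
    | one =>
      refine ⟨0, ?_⟩
      rw [hu0, lp.single_apply_self]
      exact one_pos
    | mul_right x _ y hy ih =>
      have := hstep x y⁻¹ (hsupp y (Finset.mem_coe.1 hy)) ih
      rwa [inv_inv] at this
    | mul_inv_cancel x _ y hy ih => exact hstep x y (Finset.mem_coe.1 hy) ih
  have hpos : ∀ s ∈ S, 0 < h0 s := by
    intro s hs
    obtain ⟨n, hn⟩ := hpos1 s hs
    rw [hh0]
    exact (hsum s).tsum_pos (fun n => hterm n s) n (mul_pos (pow_pos hc0 n) hn)
  -- the function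
  refine ⟨fun s => h0 ((Quotient.out (QuotientGroup.mk s : G ⧸ S))⁻¹ * s), fun s => ?_, fun s => ?_⟩
  · apply hpos
    exact QuotientGroup.leftRel_apply.mp (Quotient.exact (Quotient.out_eq _))
  · have h1 := hineq ((Quotient.out (QuotientGroup.mk s : G ⧸ S))⁻¹ * s)
    refine le_trans (le_of_eq ?_) h1
    show ∑ g ∈ F.coeff.support,
      F.coeff g * h0 ((Quotient.out (QuotientGroup.mk (s * g) : G ⧸ S))⁻¹ * (s * g)) = _
    refine Finset.sum_congr rfl fun g hg => ?_
    have hgS : g ∈ S := by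
      rw [hS]
      exact Subgroup.subset_closure hg
    have h2 : (QuotientGroup.mk (s * g) : G ⧸ S) = QuotientGroup.mk s :=
      QuotientGroup.mk_mul_of_mem s hgS
    rw [h2, mul_assoc]

end Pool.Agent.Y738.DX
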