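import Mathlib
import Pool.Agent.TH542.J4948
import Pool.Agent.Y738.DX.Walk
set_option autoImplicit false

namespace Pool.Agent.Y738.DX

open Pool.Agent.TH542.J4948

/-- number of words of length `m` over `E` with value `1` -/
noncomputable def closedWords {G : Type} [Group G] (E : Finset G) (m : ℕ) : ℕ :=
  Nat.card {w : Fin m → E // (List.ofFn fun i => (w i : G)).prod = 1}

/-- the sum of the elements of `E` in the group ring -/
noncomputable def sumOf {G : Type} (E : Finset G) : MonoidAlgebra ℝ G :=
  ∑ g ∈ E, MonoidAlgebra.single g (1 : ℝ)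

theorem T_sumOf {G : Type} [Group G] (E : Finset G) (u : L2 G) (s : G) :
    T (sumOf E) u s = ∑ g ∈ E, u (s * g) := by
  have h1 : T (sumOf E) u = ∑ g ∈ E, R g u := by
    unfold T sumOf
    rw [map_sum]
    simp [MonoidAlgebra.lift_single]
  rw [h1, lp.coeFn_sum, Finset.sum_apply]
  rfl

theorem coeff_sumOf {G : Type} [DecidableEq G] (E : Finset G) (g : G) :
    (sumOf E).coeff g = if g ∈ E then 1 else 0 := by
  unfold sumOf
  simp [Finsupp.single_apply]

open scoped Classical in
theorem count_step {G : Type} [Group G] (E : Finset G) (m : ℕ) (s : G) :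
    Nat.card {w : Fin (m + 1) → E // s * (List.ofFn fun i => (w i : G)).prod = 1} =
      ∑ g : E, Nat.card {w : Fin m → E // s * g * (List.ofFn fun i => (w i : G)).prod = 1} := by
  have e1 : {w : Fin (m + 1) → E // s * (List.ofFn fun i => (w i : G)).prod = 1} ≃
      {p : E × (Fin m → E) // s * p.1 * (List.ofFn fun i => (p.2 i : G)).prod = 1} := by
    refine (Equiv.subtypeEquiv (Fin.consEquiv fun _ => (E : Type)) ?_).symm
    rintro ⟨g, w⟩
    have : (List.ofFn fun i => (((Fin.consEquiv fun _ => (E : Type)) (g, w) i : E) : G)) =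
        (g : G) :: List.ofFn fun i => (w i : G) := by
      rw [List.ofFn_succ]
      rfl
    rw [this, List.prod_cons, mul_assoc]
  have e2 := Equiv.subtypeProdEquivSigmaSubtype
    (fun (g : E) (w : Fin m → E) => s * g * (List.ofFn fun i => (w i : G)).prod = 1)
  rw [Nat.card_congr (e1.trans e2), Nat.card_sigma]

open scoped Classical in
theorem count_eq {G : Type} [Group G] (E : Finset G) (m : ℕ) (s : G) :
    ((T (sumOf E) ^ m) (lp.single 2 (1 : G) (1 : ℝ)) : G → ℝ) s =
      (Nat.card {w : Fin m → E // s * (List.ofFn fun i => (w i : G)).prod = 1} : ℝ) := by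
  induction m generalizing s with
  | zero =>
    rw [pow_zero]
    change (lp.single 2 (1 : G) (1 : ℝ) : L2 G) s = _
    by_cases h : s = 1
    · subst h
      rw [lp.single_apply_self]
      have : Nat.card {w : Fin 0 → E // (1 : G) * (List.ofFn fun i => (w i : G)).prod = 1} = 1 := by
        rw [Nat.card_eq_one_iff_unique]
        refine ⟨⟨fun a b => Subtype.ext (Subsingleton.elim _ _)⟩, ⟨⟨fun i => i.elim0, by simp⟩⟩⟩
      rw [this, Nat.cast_one]
    · rw [lp.single_apply_ne _ _ _ h]
      have : Nat.card {w : Fin 0 → E // s * (List.ofFn fun i => (w i : G)).prod = 1} = 0 := by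
        rw [Nat.card_eq_zero]
        left
        refine ⟨fun w => h ?_⟩
        have := w.2
        simpa using this
      rw [this, Nat.cast_zero]
  | succ m ih =>
    have h1 : (T (sumOf E) ^ (m + 1)) (lp.single 2 (1 : G) (1 : ℝ)) =
        T (sumOf E) ((T (sumOf E) ^ m) (lp.single 2 (1 : G) (1 : ℝ))) := by
      rw [pow_succ']
      rfl
    rw [h1, T_sumOf, count_step, Nat.cast_sum, ← Finset.sum_coe_sort E]
    refine Finset.sum_congr rfl fun g _ => ih (s * g)

open scoped Classical in
theorem iter_one {G : Type} [Group G] (F : MonoidAlgebra ℝ G) (n : ℕ) :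
    ((T F ^ n) (lp.single 2 (1 : G) (1 : ℝ)) : G → ℝ) 1 = (F ^ n).coeff 1 := by
  rw [← T_pow, T_apply, Finsupp.sum, Finset.sum_eq_single (1 : G)]
  · simp
  · intro b _ hb
    rw [one_mul, lp.single_apply_ne _ _ _ hb, mul_zero]
  · intro h
    rw [Finsupp.notMem_support_iff.1 h, zero_mul]

theorem closedWords_eq {G : Type} [Group G] (E : Finset G) (m : ℕ) :
    (sumOf E ^ m).coeff 1 = (closedWords E m : ℝ) := by
  classical
  have h := count_eq E m 1
  have h2 := iter_one (sumOf E) m
  rw [← h2]
  convert h using 1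
  unfold closedWords
  simp only [one_mul]

end Pool.Agent.Y738.DX
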