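import Mathlib
import Pool.Agent.Y738.DX.Core
import Pool.Agent.Y738.DX.Words
set_option autoImplicit false

namespace Pool.Agent.Y738.DX

open Pool.Agent.TH542.J4948

/-- The trivial bound `‖F‖₂ ≤ L`. -/
theorem sq_le_of_ret {G : Type} [Group G] (F : MonoidAlgebra ℝ G)
    (hsym : ∀ g, F.coeff g⁻¹ = F.coeff g) (L : ℝ)
    (hret : ∀ n : ℕ, (F ^ (2 * n)).coeff 1 ≤ L ^ (2 * n)) :
    ∑ g ∈ F.coeff.support, F.coeff g ^ 2 ≤ L ^ 2 := by
  classical
  have h1 := norm_iter F hsym 1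
  have h2 := hret 1
  rw [← h1, mul_one, pow_one] at h2
  refine le_trans ?_ h2
  have hlp : ∀ (f : L2 G) (s : Finset G), ∑ i ∈ s, (f i) ^ 2 ≤ ‖f‖ ^ 2 := by
    intro f s
    have := lp.sum_rpow_le_norm_rpow (p := 2) (by norm_num) f s
    simpa using this
  refine le_trans (le_of_eq ?_) (hlp (T F (lp.single 2 (1 : G) (1 : ℝ))) F.coeff.support)
  refine Finset.sum_congr rfl fun g hg => ?_
  congr 1
  rw [T_apply, Finsupp.sum, Finset.sum_eq_single g⁻¹]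
  · rw [mul_inv_cancel, lp.single_apply_self, hsym, mul_one]
  · intro b _ hb
    rw [lp.single_apply_ne, mul_zero]
    intro h
    exact hb (mul_eq_one_iff_eq_inv'.1 h)
  · intro h
    rw [Finsupp.notMem_support_iff.1 h, zero_mul]

/-- The logarithmic bound. -/
theorem log_bound {G : Type} [Group G]
    (σ : G →* (lp (fun _ : G => ℂ) 2 →L[ℂ] lp (fun _ : G => ℂ) 2)ˣ)
    (hσu : ∀ g, ((σ g : (lp (fun _ : G => ℂ) 2 →L[ℂ] lp (fun _ : G => ℂ) 2)ˣ) :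
        lp (fun _ : G => ℂ) 2 →L[ℂ] lp (fun _ : G => ℂ) 2) ∈
        unitary (lp (fun _ : G => ℂ) 2 →L[ℂ] lp (fun _ : G => ℂ) 2))
    (hσ : ∀ (t : G) (φ : lp (fun _ : G => ℂ) 2) (s : G),
        ((σ t : (lp (fun _ : G => ℂ) 2 →L[ℂ] lp (fun _ : G => ℂ) 2)ˣ) :
          lp (fun _ : G => ℂ) 2 →L[ℂ] lp (fun _ : G => ℂ) 2) φ s = φ (t⁻¹ * s))
    (K : ℝ) (hD : ∀ (T : lp (fun _ : G => ℂ) 2 →L[ℂ] lp (fun _ : G => ℂ) 2) (d : ℝ),
      (∀ t, ‖((σ t : (lp (fun _ : G => ℂ) 2 →L[ℂ] lp (fun _ : G => ℂ) 2)ˣ) :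
        lp (fun _ : G => ℂ) 2 →L[ℂ] lp (fun _ : G => ℂ) 2) * T - T *
        ((σ t : (lp (fun _ : G => ℂ) 2 →L[ℂ] lp (fun _ : G => ℂ) 2)ˣ) :
        lp (fun _ : G => ℂ) 2 →L[ℂ] lp (fun _ : G => ℂ) 2)‖ ≤ d) →
      ∃ B : lp (fun _ : G => ℂ) 2 →L[ℂ] lp (fun _ : G => ℂ) 2,
        (∀ t, B * ((σ t : (lp (fun _ : G => ℂ) 2 →L[ℂ] lp (fun _ : G => ℂ) 2)ˣ) :
        lp (fun _ : G => ℂ) 2 →L[ℂ] lp (fun _ : G => ℂ) 2) =
        ((σ t : (lp (fun _ : G => ℂ) 2 →L[ℂ] lp (fun _ : G => ℂ) 2)ˣ) :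
        lp (fun _ : G => ℂ) 2 →L[ℂ] lp (fun _ : G => ℂ) 2) * B) ∧ ‖T - B‖ ≤ K * d)
    (F : MonoidAlgebra ℝ G) (hF : ∀ g, 0 ≤ F.coeff g) (hsym : ∀ g, F.coeff g⁻¹ = F.coeff g)
    (M L : ℝ) (hM : ∀ g, F.coeff g ≤ M) (hM0 : 0 < M) (hL : 0 ≤ L)
    (hret : ∀ n : ℕ, (F ^ (2 * n)).coeff 1 ≤ L ^ (2 * n)) :
    Real.sqrt (∑ g ∈ F.coeff.support, F.coeff g ^ 2) *
      Real.log ((∑ g ∈ F.coeff.support, F.coeff g ^ 2) / M ^ 2) ≤ (20 * K + 9) * L := by
  classical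
  have hK0 : 0 ≤ K := by
    obtain ⟨B, _, hB⟩ := hD 0 1 (fun t => by simp)
    rw [mul_one] at hB
    exact (norm_nonneg _).trans hB
  obtain ⟨q, hq⟩ : ∃ q, q = ∑ g ∈ F.coeff.support, F.coeff g ^ 2 := ⟨_, rfl⟩
  have hqL : q ≤ L ^ 2 := hq ▸ sq_le_of_ret F hsym L hret
  rw [← hq]
  have hq0 : 0 ≤ q := hq ▸ Finset.sum_nonneg fun g _ => sq_nonneg _
  rcases hq0.eq_or_lt with h0 | hqpos
  · rw [← h0, Real.sqrt_zero, zero_mul]
    positivity
  have hLpos : 0 < L := by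
    rcases hL.eq_or_lt with h | h
    · rw [← h] at hqL
      norm_num at hqL
      linarith
    · exact h
  obtain ⟨r, hr⟩ : ∃ r, r = Real.sqrt q := ⟨_, rfl⟩
  have hrpos : 0 < r := hr ▸ Real.sqrt_pos.2 hqpos
  have hr2 : r ^ 2 = q := by rw [hr]; exact Real.sq_sqrt hq0
  rw [← hr]
  obtain ⟨h, hh, hexc⟩ := excessive_of_returns F hF hsym L hLpos hret
  have hmain := core σ hσu hσ K hD F.coeff.support (fun g => by
      rw [Finsupp.mem_support_iff, Finsupp.mem_support_iff, hsym])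
    (fun g => F.coeff g / r) (fun g => div_nonneg (hF g) hrpos.le) (fun g => by simp only [hsym])
    (by
      simp_rw [div_pow]
      rw [← Finset.sum_div, ← hq, hr2, div_self hqpos.ne'])
    (M / r) (L / r) (fun g _ => div_le_div_of_nonneg_right (hM g) hrpos.le)
    (div_pos hM0 hrpos) (div_pos hLpos hrpos) h hh (fun s => by
      have h1 := hexc s
      have e1 : ∑ g ∈ F.coeff.support, F.coeff g / r * h (s * g) =
          (∑ g ∈ F.coeff.support, F.coeff g * h (s * g)) / r := by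
        rw [Finset.sum_div]
        refine Finset.sum_congr rfl fun g _ => ?_
        ring
      rw [e1, div_le_iff₀ hrpos]
      calc _ ≤ 2 * L * h s := h1
        _ = _ := by field_simp)
  -- notation
  obtain ⟨lam, hlam⟩ : ∃ lam, lam = L / r := ⟨_, rfl⟩
  obtain ⟨x, hx⟩ : ∃ x, x = r / M := ⟨_, rfl⟩
  have hxpos : 0 < x := hx ▸ div_pos hrpos hM0
  have hlampos : 0 < lam := hlam ▸ div_pos hLpos hrpos
  have hlam1 : 1 ≤ lam := by
    rw [hlam, le_div_iff₀ hrpos, one_mul, hr]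
    exact (Real.sqrt_le_left hL).2 hqL
  rw [← hlam] at hmain
  have e2 : 1 / (8 * lam * (M / r)) = x / (8 * lam) := by
    rw [hx]
    field_simp
  rw [e2, Real.log_div hxpos.ne' (by positivity), Real.log_mul (by norm_num) hlampos.ne'] at hmain
  have hlog8 : Real.log 8 ≤ 9 / 4 := by
    have e : (8 : ℝ) = 2 ^ (3 : ℕ) := by norm_num
    rw [e, Real.log_pow]
    have := Real.log_two_lt_d9
    push_cast
    linarith
  have hgoal : 2 * Real.log x ≤ (20 * K + 9) * lam := by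
    rcases le_or_gt (Real.sqrt x) lam with h1 | h1
    · have h2 : Real.log x = 2 * Real.log (Real.sqrt x) := by
        rw [Real.log_sqrt hxpos.le]; ring
      have h3 := Real.log_le_sub_one_of_pos (Real.sqrt_pos.2 hxpos)
      have h4 : 0 ≤ K * lam := mul_nonneg hK0 hlampos.le
      nlinarith
    · have h2 : Real.log lam ≤ 1 / 2 * Real.log x := by
        have := Real.log_le_log hlampos h1.le
        rw [Real.log_sqrt hxpos.le] at this
        linarith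
      nlinarith
  have e3 : q / M ^ 2 = x ^ 2 := by
    rw [hx, div_pow, hr2]
  rw [e3, Real.log_pow]
  push_cast
  calc r * (2 * Real.log x) ≤ r * ((20 * K + 9) * lam) := mul_le_mul_of_nonneg_left hgoal hrpos.le
    _ = (20 * K + 9) * L := by
        rw [hlam]
        field_simp

end Pool.Agent.Y738.DX
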